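import Pool.Agent.Helper55.RL.Spec

/-! RL part SP2. -/

set_option autoImplicit false
set_option linter.all false

open Polynomial IsDedekindDomain NumberField
open scoped Classical

namespace Pool.Agent.Helper54.RL

theorem sp2_core (k k' : Type) [Field k] [CharZero k] [Field k'] [Algebra k k']
    [IsSepClosure k k'] (M k₂ : IntermediateField k k') [FiniteDimensional k M] [IsGalois k M]
    [FiniteDimensional k k₂] (σ : k' ≃ₐ[k] k') (hσ : ∀ x ∈ k₂ ⊓ M, σ x = x) :
    ∃ τ : k' ≃ₐ[k] k', (∀ x ∈ M, τ x = σ x) ∧ ∀ x ∈ k₂, τ x = x := by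
  haveI : IsGalois k k' := IsSepClosure.isGalois
  let H : Subgroup (M ≃ₐ[k] M) :=
    k₂.fixingSubgroup.map (AlgEquiv.restrictNormalHom (F := k) (K₁ := k') M)
  have hfix : ∀ x ∈ IntermediateField.fixedField H, (x : k') ∈ k₂ := by
    intro x hx
    rw [← InfiniteGalois.fixedField_fixingSubgroup k₂, IntermediateField.mem_fixedField_iff]
    intro τ hτ
    have h2 := (IntermediateField.mem_fixedField_iff H x).1 hx
      (AlgEquiv.restrictNormalHom M τ) (Subgroup.mem_map_of_mem _ hτ)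
    have h4 : algebraMap M k' (AlgEquiv.restrictNormalHom M τ x) = τ (algebraMap M k' x) :=
      AlgEquiv.restrictNormal_commutes τ M x
    rw [h2] at h4
    exact h4.symm
  have hmem : AlgEquiv.restrictNormalHom M σ ∈ H := by
    rw [← IntermediateField.fixingSubgroup_fixedField H, IntermediateField.mem_fixingSubgroup_iff]
    intro x hx
    apply Subtype.ext
    have h4 : algebraMap M k' (AlgEquiv.restrictNormalHom M σ x) = σ (algebraMap M k' x) :=
      AlgEquiv.restrictNormal_commutes σ M x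
    exact h4.trans (hσ _ ⟨hfix x hx, x.2⟩)
  obtain ⟨τ, hτ, hτσ⟩ := hmem
  refine ⟨τ, ?_, ?_⟩
  · intro x hx
    have h1 : algebraMap M k' (AlgEquiv.restrictNormalHom M τ ⟨x, hx⟩) = τ x :=
      AlgEquiv.restrictNormal_commutes τ M ⟨x, hx⟩
    have h2 : algebraMap M k' (AlgEquiv.restrictNormalHom M σ ⟨x, hx⟩) = σ x :=
      AlgEquiv.restrictNormal_commutes σ M ⟨x, hx⟩
    rw [← h1, ← h2, hτσ]
  · intro x hx
    exact (IntermediateField.mem_fixingSubgroup_iff k₂ τ).1 hτ x hx

theorem sp2 : Pool.Agent.Helper55.RL.P_SP2 := by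
  intro k k' _ _ _ _ _ M k₂ _ _ _ σ hσ
  exact sp2_core k k' M k₂ σ hσ

end Pool.Agent.Helper54.RL
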